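import Pool.Agent.Helper43.Gr.Goals

/-!
# Packet R8c: most sequences are not near critical
-/

namespace Pool.Agent.Helper43.Gr.PkR8c

open Finset

/-- A finite set of integers on which `g` grows with slope at least `D` and has oscillation at most
`L`. -/
theorem spacing (T : Finset ℕ) (g : ℕ → ℝ) (D L : ℝ) (hD : 0 < D) (hL : 0 ≤ L)
    (hg : ∀ x ∈ T, ∀ y ∈ T, x ≤ y → ((y : ℝ) - x) * D ≤ g y - g x)
    (ho : ∀ x ∈ T, ∀ y ∈ T, g y - g x ≤ L) : (T.card : ℝ) ≤ L / D + 1 := by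
  rcases T.eq_empty_or_nonempty with h | h
  · rw [h, Finset.card_empty]
    have : 0 ≤ L / D := div_nonneg hL hD.le
    push_cast
    linarith
  · have hmin := T.min'_mem h
    have hmax := T.max'_mem h
    have hle := T.min'_le_max' h
    have hsub : T ⊆ Icc (T.min' h) (T.max' h) := fun x hx =>
      mem_Icc.2 ⟨T.min'_le x hx, T.le_max' x hx⟩
    have hc := card_le_card hsub
    rw [Nat.card_Icc] at hc
    have h1 := hg _ hmin _ hmax hle
    have h2 := ho _ hmin _ hmax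
    have h3 : ((T.max' h : ℝ) - T.min' h) ≤ L / D := by
      rw [le_div_iff₀ hD]
      exact h1.trans h2
    have h4 : (T.card : ℝ) ≤ (T.max' h : ℝ) + 1 - T.min' h := by
      have : T.card + T.min' h ≤ T.max' h + 1 := by omega
      have h5 : ((T.card + T.min' h : ℕ) : ℝ) ≤ ((T.max' h + 1 : ℕ) : ℝ) := by exact_mod_cast this
      push_cast at h5
      linarith
    linarith

theorem cast_choose (x : ℕ) : (((x + 1).choose 2 : ℕ) : ℝ) = (x : ℝ) * (x + 1) / 2 := by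
  rw [Nat.cast_choose_two]
  push_cast
  ring

/-- filter with classical decidability -/
noncomputable def cf (S : Finset ℕ) (Q : ℕ → Prop) : Finset ℕ :=
  @Finset.filter ℕ Q (Classical.decPred Q) S

theorem mem_cf {S : Finset ℕ} {Q : ℕ → Prop} {x : ℕ} : x ∈ cf S Q ↔ x ∈ S ∧ Q x :=
  @Finset.mem_filter ℕ Q (Classical.decPred Q) S x

theorem count_x (M A w : ℕ) (δ D : ℝ) (hM : 1 ≤ M) (hδ : 0 < δ) (hD : 0 < D)
    (hDA : D ^ 2 ≤ (A : ℝ) / 2) (hw1 : (w : ℝ) ≤ (M : ℝ) ^ 2) (hw2 : (w : ℝ) ≤ (A : ℝ) / 2) :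
    ((cf (Icc 1 M) (fun x => ∃ R : ℕ,
      |((R + 1).choose 2 : ℤ) - ((A : ℤ) + ((x + 1).choose 2 : ℤ))| < (w : ℤ))).card : ℝ) ≤
      δ * M + (3 * (M : ℝ) ^ 2 / D + 1) * (2 * w / (δ * M) + 1) := by
  classical
  have hM' : (1 : ℝ) ≤ M := by exact_mod_cast hM
  have hδM : 0 < δ * M := by positivity
  -- real form of the condition
  have hreal : ∀ R x : ℕ, |((R + 1).choose 2 : ℤ) - ((A : ℤ) + ((x + 1).choose 2 : ℤ))| < (w : ℤ) →
      |(R : ℝ) * (R + 1) / 2 - (A + (x : ℝ) * (x + 1) / 2)| < w := by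
    intro R x h
    have h1 : |(((R + 1).choose 2 : ℤ) : ℝ) - ((A : ℤ) + (((x + 1).choose 2 : ℤ) : ℝ))| <
        ((w : ℤ) : ℝ) := by exact_mod_cast h
    push_cast at h1
    rw [cast_choose, cast_choose] at h1
    exact h1
  set P : ℕ → ℕ → Prop := fun R x =>
    |((R + 1).choose 2 : ℤ) - ((A : ℤ) + ((x + 1).choose 2 : ℤ))| < (w : ℤ) with hP
  set RR : Finset ℕ := cf (range (A + M ^ 2 + w + 1)) (fun R => ∃ x ∈ Icc 1 M, P R x) with hRR
  set TT : ℕ → Finset ℕ := fun R => cf (Icc 1 M) (fun x => δ * M ≤ (x : ℝ) ∧ P R x) with hTT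
  have hxM : ∀ x ∈ Icc 1 M, (1 : ℝ) ≤ x ∧ (x : ℝ) ≤ M := by
    intro x hx
    rw [mem_Icc] at hx
    exact ⟨by exact_mod_cast hx.1, by exact_mod_cast hx.2⟩
  have hTc : ∀ R, ((TT R).card : ℝ) ≤ 2 * w / (δ * M) + 1 := by
    intro R
    refine spacing (TT R) (fun x => (x : ℝ) * (x + 1) / 2) (δ * M) (2 * w) hδM (by positivity) ?_ ?_
    · intro x hx y hy hxy
      rw [hTT, mem_cf] at hx hy
      have hxy' : (x : ℝ) ≤ y := by exact_mod_cast hxy
      have h1 := hx.2.1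
      have h2 := hy.2.1
      nlinarith
    · intro x hx y hy
      rw [hTT, mem_cf] at hx hy
      have h1 := abs_lt.1 (hreal R x hx.2.2)
      have h2 := abs_lt.1 (hreal R y hy.2.2)
      linarith
  have hRc : ((RR).card : ℝ) ≤ 3 * (M : ℝ) ^ 2 / D + 1 := by
    refine spacing RR (fun x => (x : ℝ) * (x + 1) / 2) D (3 * (M : ℝ) ^ 2) hD (by positivity) ?_ ?_
    · intro x hx y hy hxy
      have hbig : ∀ R ∈ RR, D ≤ (R : ℝ) := by
        intro R hR
        rw [hRR, mem_cf] at hR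
        obtain ⟨_, z, hz, hz2⟩ := hR
        have h1 := abs_lt.1 (hreal R z hz2)
        have h2 := hxM z hz
        have h3 : D ^ 2 ≤ (R : ℝ) * (R + 1) / 2 := by nlinarith
        have h4 : (R : ℝ) * (R + 1) / 2 ≤ (R : ℝ) ^ 2 := by
          rcases Nat.eq_zero_or_pos R with h0 | h0
          · rw [h0]; simp
          · have : (1 : ℝ) ≤ R := by exact_mod_cast h0
            nlinarith
        exact (abs_le_of_sq_le_sq' (h3.trans h4) (Nat.cast_nonneg R)).2
      have hxy' : (x : ℝ) ≤ y := by exact_mod_cast hxy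
      have h1 := hbig x hx
      have h2 := hbig y hy
      nlinarith
    · intro x hx y hy
      rw [hRR, mem_cf] at hx hy
      obtain ⟨_, z, hz, hz2⟩ := hx
      obtain ⟨_, t, ht, ht2⟩ := hy
      have h1 := abs_lt.1 (hreal x z hz2)
      have h2 := abs_lt.1 (hreal y t ht2)
      have h3 := hxM z hz
      have h4 := hxM t ht
      nlinarith
  have hsub : cf (Icc 1 M) (fun x => ∃ R : ℕ, P R x) ⊆
      Icc 1 ⌊δ * M⌋₊ ∪ RR.biUnion TT := by
    intro x hx
    rw [mem_cf] at hx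
    obtain ⟨hx1, R, hR⟩ := hx
    rw [mem_union]
    by_cases hc : δ * M ≤ (x : ℝ)
    · right
      rw [mem_biUnion]
      refine ⟨R, ?_, ?_⟩
      · rw [hRR, mem_cf]
        refine ⟨?_, x, hx1, hR⟩
        rw [mem_range]
        have h1 := (abs_lt.1 (hreal R x hR)).2
        have h2 := hxM x hx1
        have h3 : (R : ℝ) ≤ (R : ℝ) * (R + 1) / 2 := by
          rcases Nat.eq_zero_or_pos R with h0 | h0
          · rw [h0]; simp
          · have : (1 : ℝ) ≤ R := by exact_mod_cast h0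
            nlinarith
        have h4 : (R : ℝ) < A + (M : ℝ) ^ 2 + w + 1 := by nlinarith
        exact_mod_cast h4
      · rw [hTT, mem_cf]
        exact ⟨hx1, hc, hR⟩
    · left
      rw [mem_Icc] at hx1 ⊢
      exact ⟨hx1.1, Nat.le_floor (le_of_not_ge hc)⟩
  calc ((cf (Icc 1 M) (fun x => ∃ R : ℕ, P R x)).card : ℝ)
      ≤ ((Icc 1 ⌊δ * M⌋₊ ∪ RR.biUnion TT).card : ℝ) := by exact_mod_cast card_le_card hsub
    _ ≤ ((Icc 1 ⌊δ * M⌋₊).card : ℝ) + ((RR.biUnion TT).card : ℝ) := by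
        exact_mod_cast card_union_le _ _
    _ ≤ δ * M + ∑ R ∈ RR, ((TT R).card : ℝ) := by
        refine add_le_add ?_ ?_
        · rw [Nat.card_Icc, Nat.add_sub_cancel]
          exact Nat.floor_le hδM.le
        · have := card_biUnion_le (s := RR) (t := TT)
          exact_mod_cast this
    _ ≤ δ * M + ∑ _R ∈ RR, (2 * w / (δ * M) + 1) :=
        add_le_add le_rfl (Finset.sum_le_sum fun R _ => hTc R)
    _ = δ * M + (RR.card : ℝ) * (2 * w / (δ * M) + 1) := by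
        rw [Finset.sum_const, nsmul_eq_mul]
    _ ≤ _ := by
        refine add_le_add le_rfl (mul_le_mul_of_nonneg_right hRc ?_)
        have : 0 ≤ 2 * (w : ℝ) / (δ * M) := by positivity
        linarith

/-- the numerical part -/
theorem numb (b : ℕ) (hb : 1 ≤ b) (C δ : ℝ) (hC : 1 ≤ C) (hδ : 0 < δ) :
    ∃ η : ℝ, 0 < η ∧ ∃ s0 : ℝ, 4 * b ≤ s0 ∧ 1 ≤ s0 ∧ ∀ (s M K A : ℕ), s0 ≤ s → (s : ℝ) ≤ C * M →
      (M : ℝ) ≤ η * (s : ℝ) ^ ((5 : ℝ) / 2) → (K : ℝ) * s ≤ 2 * C * M →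
      (s : ℝ) * M ^ 2 / (64 * b) ≤ A → ((cf (Icc 1 M) (fun x => ∃ R : ℕ,
      |((R + 1).choose 2 : ℤ) - ((A : ℤ) + ((x + 1).choose 2 : ℤ))| <
        ((3 * K ^ 2 : ℕ) : ℤ))).card : ℝ) ≤ 2 * δ * M := by
  have hb' : (1 : ℝ) ≤ b := by exact_mod_cast hb
  set κ : ℝ := √(1 / (128 * b)) with hκ
  have hκ0 : 0 < κ := Real.sqrt_pos.2 (by positivity)
  have hκ2 : κ ^ 2 = 1 / (128 * b) := Real.sq_sqrt (by positivity)
  refine ⟨δ ^ 2 * κ / (288 * C ^ 2), by positivity,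
    1 + 144 / (κ * δ) ^ 2 + 96 * C ^ 2 / δ ^ 2 + 4 * C / δ + 12 * C ^ 2 + 1536 * b * C ^ 2 + 4 * b,
    ?_, ?_, ?_⟩
  · have h1 : 0 ≤ 144 / (κ * δ) ^ 2 := by positivity
    have h2 : 0 ≤ 96 * C ^ 2 / δ ^ 2 := by positivity
    have h3 : 0 ≤ 4 * C / δ := by positivity
    have h4 : 0 ≤ 12 * C ^ 2 := by positivity
    have h5 : 0 ≤ 1536 * b * C ^ 2 := by positivity
    linarith
  · have h1 : 0 ≤ 144 / (κ * δ) ^ 2 := by positivity
    have h2 : 0 ≤ 96 * C ^ 2 / δ ^ 2 := by positivity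
    have h3 : 0 ≤ 4 * C / δ := by positivity
    have h4 : 0 ≤ 12 * C ^ 2 := by positivity
    have h5 : 0 ≤ 1536 * b * C ^ 2 := by positivity
    linarith
  intro s M K A hs hsM hMs hKs hA
  have h1 : 0 ≤ 144 / (κ * δ) ^ 2 := by positivity
  have h2 : 0 ≤ 96 * C ^ 2 / δ ^ 2 := by positivity
  have h3 : 0 ≤ 4 * C / δ := by positivity
  have h4 : 0 ≤ 12 * C ^ 2 := by positivity
  have h5 : 0 ≤ 1536 * (b : ℝ) * C ^ 2 := by positivity
  have s1 : (1 : ℝ) ≤ s := by linarith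
  have s2 : 144 / (κ * δ) ^ 2 ≤ s := by linarith
  have s3 : 96 * C ^ 2 / δ ^ 2 ≤ s := by linarith
  have s4 : 4 * C / δ ≤ s := by linarith
  have s5 : 12 * C ^ 2 ≤ s := by linarith
  have s6 : 1536 * b * C ^ 2 ≤ s := by linarith
  have hM0 : (0 : ℝ) < M := by
    by_contra h
    have : (M : ℝ) = 0 := le_antisymm (not_lt.1 h) (Nat.cast_nonneg M)
    rw [this, mul_zero] at hsM
    linarith
  have hM1 : 1 ≤ M := by
    have : 0 < M := by exact_mod_cast hM0
    omega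
  set t : ℝ := √s with ht
  have ht0 : 0 < t := Real.sqrt_pos.2 (by linarith)
  have ht2 : t ^ 2 = s := Real.sq_sqrt (by linarith)
  have ht1 : 1 ≤ t := by
    rw [ht]
    exact Real.one_le_sqrt.2 s1
  have ht5 : (s : ℝ) ^ ((5 : ℝ) / 2) = t ^ 5 := by
    rw [← ht2, ← Real.rpow_natCast t 2, ← Real.rpow_mul ht0.le, ← Real.rpow_natCast t 5]
    norm_num
  rw [ht5] at hMs
  -- the bound for w
  have hK : (K : ℝ) ≤ 2 * C * M / s := by
    rw [le_div_iff₀ (by linarith)]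
    exact hKs
  have hw : ((3 * K ^ 2 : ℕ) : ℝ) ≤ 12 * C ^ 2 * M ^ 2 / t ^ 4 := by
    push_cast
    have e : 12 * C ^ 2 * (M : ℝ) ^ 2 / t ^ 4 = 3 * (2 * C * M / s) ^ 2 := by
      rw [← ht2]
      field_simp
      ring
    rw [e]
    have := pow_le_pow_left₀ (Nat.cast_nonneg K) hK 2
    linarith
  have ht4 : t ^ 4 = (s : ℝ) ^ 2 := by rw [← ht2]; ring
  have hs2 : (s : ℝ) ≤ (s : ℝ) ^ 2 := by nlinarith
  have hw1 : ((3 * K ^ 2 : ℕ) : ℝ) ≤ (M : ℝ) ^ 2 := by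
    refine hw.trans ?_
    rw [div_le_iff₀ (by positivity), ht4]
    have : 12 * C ^ 2 ≤ (s : ℝ) ^ 2 := s5.trans hs2
    have h7 := mul_le_mul_of_nonneg_right this (sq_nonneg (M : ℝ))
    linarith
  have hw2 : ((3 * K ^ 2 : ℕ) : ℝ) ≤ (A : ℝ) / 2 := by
    refine hw.trans ?_
    have e : 12 * C ^ 2 * (M : ℝ) ^ 2 / t ^ 4 ≤ ((s : ℝ) * M ^ 2 / (64 * b)) / 2 := by
      rw [div_le_iff₀ (by positivity), ht4]
      have h6 : 1536 * b * C ^ 2 ≤ (s : ℝ) ^ 3 := by
        have h8 : (s : ℝ) ≤ (s : ℝ) ^ 3 := by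
          calc (s : ℝ) = s * 1 := by ring
            _ ≤ s * s ^ 2 := mul_le_mul_of_nonneg_left (one_le_pow₀ s1) (by linarith)
            _ = (s : ℝ) ^ 3 := by ring
        linarith
      have h7 : ((s : ℝ) * M ^ 2 / (64 * b)) / 2 * s ^ 2 = (s : ℝ) ^ 3 * M ^ 2 / (128 * b) := by
        field_simp
        ring
      rw [h7, le_div_iff₀ (by positivity)]
      have h8 := mul_le_mul_of_nonneg_right h6 (sq_nonneg (M : ℝ))
      calc 12 * C ^ 2 * (M : ℝ) ^ 2 * (128 * b) = 1536 * b * C ^ 2 * (M : ℝ) ^ 2 := by ring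
        _ ≤ (s : ℝ) ^ 3 * M ^ 2 := h8
    linarith
  set D : ℝ := M * (t * κ) with hD
  have hD0 : 0 < D := by positivity
  have hDA : D ^ 2 ≤ (A : ℝ) / 2 := by
    have : D ^ 2 = ((s : ℝ) * M ^ 2 / (64 * b)) / 2 := by
      rw [hD, mul_pow, mul_pow, ht2, hκ2]
      field_simp
      ring
    rw [this]
    linarith
  have hmain := count_x M A (3 * K ^ 2) δ D hM1 hδ hD0 hDA hw1 hw2
  refine hmain.trans ?_
  have ea : 3 * (M : ℝ) ^ 2 / D = 3 * M / (t * κ) := by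
    rw [hD]
    field_simp
  set a : ℝ := 3 * M / (t * κ) with ha
  set b' : ℝ := 24 * C ^ 2 * M / (δ * t ^ 4) with hb'
  have ha0 : 0 ≤ a := by positivity
  have hb0 : 0 ≤ b' := by positivity
  have hbb : 2 * ((3 * K ^ 2 : ℕ) : ℝ) / (δ * M) ≤ b' := by
    rw [hb', div_le_div_iff₀ (by positivity) (by positivity)]
    have h6 : ((3 * K ^ 2 : ℕ) : ℝ) * t ^ 4 ≤ 12 * C ^ 2 * M ^ 2 := by
      rwa [le_div_iff₀ (by positivity)] at hw
    have h7 := mul_le_mul_of_nonneg_left h6 (by positivity : (0 : ℝ) ≤ 2 * δ)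
    calc 2 * ((3 * K ^ 2 : ℕ) : ℝ) * (δ * t ^ 4) = 2 * δ * (((3 * K ^ 2 : ℕ) : ℝ) * t ^ 4) := by ring
      _ ≤ 2 * δ * (12 * C ^ 2 * M ^ 2) := h7
      _ = 24 * C ^ 2 * M * (δ * M) := by ring
  have c1 : a ≤ δ * M / 4 := by
    have h6 : 12 / (κ * δ) ≤ t := by
      have h7 : (12 / (κ * δ)) ^ 2 ≤ t ^ 2 := by
        rw [ht2, div_pow]
        norm_num
        exact s2
      exact (abs_le_of_sq_le_sq' h7 ht0.le).2
    rw [div_le_iff₀ (by positivity)] at h6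
    rw [ha, div_le_iff₀ (by positivity)]
    have h7 := mul_le_mul_of_nonneg_right h6 hM0.le
    calc 3 * (M : ℝ) = (12 * M) / 4 := by ring
      _ ≤ (t * (κ * δ) * M) / 4 := by linarith
      _ = δ * M / 4 * (t * κ) := by ring
  have c2 : b' ≤ δ * M / 4 := by
    rw [hb', div_le_iff₀ (by positivity), ht4]
    have h6 : 96 * C ^ 2 ≤ (s : ℝ) ^ 2 * δ ^ 2 := by
      have := s3.trans hs2
      rwa [div_le_iff₀ (by positivity)] at this
    have h7 := mul_le_mul_of_nonneg_right h6 hM0.le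
    calc 24 * C ^ 2 * (M : ℝ) = (96 * C ^ 2 * M) / 4 := by ring
      _ ≤ ((s : ℝ) ^ 2 * δ ^ 2 * M) / 4 := by linarith
      _ = δ * M / 4 * (δ * (s : ℝ) ^ 2) := by ring
  have c3 : 1 ≤ δ * M / 4 := by
    have h6 : 4 * C / δ ≤ C * M := s4.trans hsM
    rw [div_le_iff₀ hδ] at h6
    have h7 : 4 ≤ M * δ := by
      have : C * 4 ≤ C * (M * δ) := by linarith
      exact le_of_mul_le_mul_left this (by linarith)
    linarith
  have c4 : a * b' ≤ δ * M / 4 := by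
    have e : a * b' = (M * 288 * C ^ 2 / (δ * κ * t ^ 5)) * (M / 4) := by
      rw [ha, hb']
      field_simp
      ring
    rw [e]
    have h6 : (M : ℝ) * 288 * C ^ 2 / (δ * κ * t ^ 5) ≤ δ := by
      rw [div_le_iff₀ (by positivity)]
      have h7 : (M : ℝ) * (288 * C ^ 2) ≤ δ ^ 2 * κ * t ^ 5 := by
        have h8 : δ ^ 2 * κ / (288 * C ^ 2) * t ^ 5 = (δ ^ 2 * κ * t ^ 5) / (288 * C ^ 2) := by ring
        rw [h8, le_div_iff₀ (by positivity)] at hMs
        exact hMs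
      calc (M : ℝ) * 288 * C ^ 2 = (M : ℝ) * (288 * C ^ 2) := by ring
        _ ≤ δ ^ 2 * κ * t ^ 5 := h7
        _ = δ * (δ * κ * t ^ 5) := by ring
    have := mul_le_mul_of_nonneg_right h6 (by positivity : (0 : ℝ) ≤ M / 4)
    linarith
  rw [ea]
  have hle : (a + 1) * (2 * ((3 * K ^ 2 : ℕ) : ℝ) / (δ * M) + 1) ≤ (a + 1) * (b' + 1) :=
    mul_le_mul_of_nonneg_left (by linarith) (by linarith)
  have e2 : (a + 1) * (b' + 1) = a * b' + a + b' + 1 := by ring
  rw [e2] at hle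
  linarith

/-- splitting off the first entry -/
theorem split (s M : ℕ) (Q : (Fin (s + 1) → ℕ) → Prop) :
    (@Finset.filter _ Q (Classical.decPred Q) (Om (s + 1) M)).card ≤
      ∑ m ∈ Om s M, (cf (Icc 1 M) (fun x => Q (Fin.cons x m))).card := by
  classical
  rw [← Finset.card_sigma]
  refine Finset.card_le_card_of_injOn (fun m => ⟨Fin.tail m, m 0⟩) ?_ ?_
  · intro m hm
    have hm' := (@Finset.mem_filter _ Q (Classical.decPred Q) _ _).1 hm
    have h1 := Fintype.mem_piFinset.1 hm'.1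
    rw [Finset.mem_coe, Finset.mem_sigma]
    refine ⟨Fintype.mem_piFinset.2 fun i => h1 _, ?_⟩
    show m 0 ∈ cf (Icc 1 M) _
    rw [mem_cf]
    refine ⟨h1 0, ?_⟩
    show Q (Fin.cons (m 0) (Fin.tail m))
    rw [Fin.cons_self_tail]
    exact hm'.2
  · intro m _ m' _ h
    have h1 : Fin.tail m = Fin.tail m' := congrArg Sigma.fst h
    have h2 : m 0 = m' 0 := by
      have := (Sigma.mk.inj_iff.1 h).2
      exact eq_of_heq this
    rw [← Fin.cons_self_tail m, ← Fin.cons_self_tail m', h1, h2]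

theorem card_Om (s M : ℕ) : (Om s M).card = M ^ s := by
  unfold Om
  rw [Fintype.card_piFinset]
  simp

theorem goalR8c (h8a : GoalR8a) : GoalR8c := by
  classical
  intro C ε hC hε
  obtain ⟨b0, hb0⟩ := exists_pow_lt_of_lt_one (show 0 < ε / 8 by positivity)
    (show (1 / 2 : ℝ) < 1 by norm_num)
  set b : ℕ := b0 + 1 with hb
  have hb1 : 1 ≤ b := by omega
  have hb1' : (1 : ℝ) ≤ b := by exact_mod_cast hb1
  have hbp : (1 / 2 : ℝ) ^ b ≤ ε / 8 := by
    rw [hb, pow_succ]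
    have : (0 : ℝ) ≤ (1 / 2) ^ b0 := by positivity
    linarith
  set δ : ℝ := ε / 4 with hδ
  have hδ0 : 0 < δ := by positivity
  obtain ⟨η, hη, s0, hs0, hs1, H⟩ := numb b hb1 C δ hC hδ0
  refine ⟨η, hη, ⌈s0⌉₊ + 1, ?_⟩
  intro s M K hs hsM hMs hKs
  have hs' : s0 ≤ (s : ℝ) := by
    have h1 := Nat.le_ceil s0
    have h2 : ((⌈s0⌉₊ : ℕ) : ℝ) ≤ (s : ℝ) := by exact_mod_cast (by omega : ⌈s0⌉₊ ≤ s)
    linarith
  have hM0 : (0 : ℝ) < M := by
    by_contra h
    have : (M : ℝ) = 0 := le_antisymm (not_lt.1 h) (Nat.cast_nonneg M)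
    rw [this, mul_zero] at hsM
    linarith
  have hM1 : 1 ≤ M := by
    have : 0 < M := by exact_mod_cast hM0
    omega
  obtain ⟨s', rfl⟩ : ∃ s', s = s' + 1 := ⟨s - 1, by omega⟩
  set Q : (Fin (s' + 1) → ℕ) → Prop := fun m => ∃ R : ℕ,
      |((R + 1).choose 2 : ℤ) - ∑ i, ((m i + 1).choose 2 : ℤ)| < 3 * (K : ℤ) ^ 2 with hQ
  have hgoal : (((Om (s' + 1) M).filter (fun m => ∃ R : ℕ,
      |((R + 1).choose 2 : ℤ) - ∑ i, ((m i + 1).choose 2 : ℤ)| < 3 * (K : ℤ) ^ 2)).card : ℝ) =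
      ((@Finset.filter _ Q (Classical.decPred Q) (Om (s' + 1) M)).card : ℝ) := by
    congr 2
  refine le_trans (le_of_eq hgoal) ?_
  -- exceptional set
  set B : Finset ℕ := Icc (M / 2 + 1) M with hB
  have hBs : B ⊆ Icc 1 M := fun x hx => by
    rw [hB, mem_Icc] at hx
    rw [mem_Icc]
    omega
  have hBc : (1 / 2 : ℝ) ≤ (B.card : ℝ) / M := by
    rw [le_div_iff₀ hM0, hB, Nat.card_Icc]
    have h1 : M ≤ 2 * (M + 1 - (M / 2 + 1)) := by omega
    have h2 : (M : ℝ) ≤ 2 * ((M + 1 - (M / 2 + 1) : ℕ) : ℝ) := by exact_mod_cast h1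
    linarith
  have hBc1 : (B.card : ℝ) / M ≤ 1 := by
    rw [div_le_one hM0]
    have h1 : B.card ≤ M := by
      have h2 := card_le_card hBs
      have h3 : (Icc 1 M).card = M := by rw [Nat.card_Icc, Nat.add_sub_cancel]
      omega
    exact_mod_cast h1
  set E : Finset (Fin s' → ℕ) := (Om s' M).filter (fun m =>
    2 * (Finset.univ.filter (fun i => m i ∈ B)).card < s' / b) with hE
  have hEc : (E.card : ℝ) ≤ δ * (M : ℝ) ^ s' := by
    refine (h8a s' M b B hM1 hb1 hBs).trans ?_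
    have h1 : (1 - (B.card : ℝ) / M) ^ b ≤ (1 / 2 : ℝ) ^ b :=
      pow_le_pow_left₀ (by linarith) (by linarith) b
    have h2 : 2 * (1 - (B.card : ℝ) / M) ^ b ≤ δ := by linarith
    exact mul_le_mul_of_nonneg_right h2 (by positivity)
  have hN : ∀ m ∈ Om s' M, m ∉ E →
      ((cf (Icc 1 M) (fun x => Q (Fin.cons x m))).card : ℝ) ≤ 2 * δ * M := by
    intro m hm hmE
    set A : ℕ := ∑ i, (m i + 1).choose 2 with hA
    have hcard : s' / b ≤ 2 * (Finset.univ.filter (fun i => m i ∈ B)).card := by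
      by_contra hc
      exact hmE (Finset.mem_filter.2 ⟨hm, not_le.1 hc⟩)
    have hAge : ((s' + 1 : ℕ) : ℝ) * M ^ 2 / (64 * b) ≤ A := by
      have h1 : ∀ i ∈ Finset.univ.filter (fun i => m i ∈ B),
          (M : ℝ) ^ 2 / 8 ≤ (((m i + 1).choose 2 : ℕ) : ℝ) := by
        intro i hi
        have h2 := (Finset.mem_filter.1 hi).2
        rw [hB, mem_Icc] at h2
        have h3 : M ≤ 2 * m i := by omega
        have h4 : (M : ℝ) ≤ 2 * m i := by exact_mod_cast h3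
        rw [cast_choose]
        nlinarith
      have h2 : ((Finset.univ.filter (fun i => m i ∈ B)).card : ℝ) * ((M : ℝ) ^ 2 / 8) ≤
          ∑ i ∈ Finset.univ.filter (fun i => m i ∈ B), (((m i + 1).choose 2 : ℕ) : ℝ) := by
        rw [← nsmul_eq_mul]
        exact Finset.card_nsmul_le_sum _ _ _ h1
      have h3 : ∑ i ∈ Finset.univ.filter (fun i => m i ∈ B), (((m i + 1).choose 2 : ℕ) : ℝ) ≤
          (A : ℝ) := by
        rw [hA]
        push_cast
        exact Finset.sum_le_sum_of_subset_of_nonneg (Finset.filter_subset _ _)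
          (fun i _ _ => Nat.cast_nonneg _)
      have h4 : (((s' + 1 : ℕ) : ℝ)) / (8 * b) ≤
          ((Finset.univ.filter (fun i => m i ∈ B)).card : ℝ) := by
        have h5 : ((s' / b : ℕ) : ℝ) ≤ 2 * ((Finset.univ.filter (fun i => m i ∈ B)).card : ℝ) := by
          exact_mod_cast hcard
        have h6 : (s' : ℝ) / b < ((s' / b : ℕ) : ℝ) + 1 := by
          rw [← Nat.floor_div_eq_div (K := ℝ)]
          exact Nat.lt_floor_add_one _
        have h7 : (((s' + 1 : ℕ) : ℝ)) / (4 * b) ≤ (s' : ℝ) / b - 1 := by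
          have hs4 : 4 * (b : ℝ) ≤ ((s' + 1 : ℕ) : ℝ) := hs0.trans hs'
          push_cast at hs4 ⊢
          rw [div_le_iff₀ (by positivity)]
          have h8 : ((s' : ℝ) / b - 1) * (4 * b) = 4 * s' - 4 * b := by
            field_simp
          rw [h8]
          linarith
        have h9 : (((s' + 1 : ℕ) : ℝ)) / (8 * b) = ((((s' + 1 : ℕ) : ℝ)) / (4 * b)) / 2 := by
          field_simp
          norm_num
        rw [h9]
        linarith
      have h10 : ((s' + 1 : ℕ) : ℝ) * M ^ 2 / (64 * b) =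
          (((s' + 1 : ℕ) : ℝ)) / (8 * b) * ((M : ℝ) ^ 2 / 8) := by
        field_simp
        norm_num
      rw [h10]
      exact ((mul_le_mul_of_nonneg_right h4 (by positivity)).trans h2).trans h3
    have h11 := H (s' + 1) M K A hs' hsM hMs hKs hAge
    have h12 : (cf (Icc 1 M) (fun x => Q (Fin.cons x m))) = cf (Icc 1 M) (fun x => ∃ R : ℕ,
        |((R + 1).choose 2 : ℤ) - ((A : ℤ) + ((x + 1).choose 2 : ℤ))| <
        ((3 * K ^ 2 : ℕ) : ℤ)) := by
      congr 1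
      funext x
      rw [hQ]
      refine propext (exists_congr fun R => ?_)
      rw [Fin.sum_univ_succ]
      simp only [Fin.cons_zero, Fin.cons_succ]
      rw [hA]
      push_cast
      rw [add_comm (((x + 1).choose 2 : ℕ) : ℤ)]
    rw [h12]
    exact h11
  have hNt : ∀ m : Fin s' → ℕ, ((cf (Icc 1 M) (fun x => Q (Fin.cons x m))).card : ℝ) ≤ M := by
    intro m
    have h1 : cf (Icc 1 M) (fun x => Q (Fin.cons x m)) ⊆ Icc 1 M := fun x hx => (mem_cf.1 hx).1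
    have h2 := card_le_card h1
    rw [Nat.card_Icc, Nat.add_sub_cancel] at h2
    exact_mod_cast h2
  have hsp : ((@Finset.filter _ Q (Classical.decPred Q) (Om (s' + 1) M)).card : ℝ) ≤
      ∑ m ∈ Om s' M, ((cf (Icc 1 M) (fun x => Q (Fin.cons x m))).card : ℝ) := by
    exact_mod_cast split s' M Q
  refine hsp.trans ?_
  have hEs : E ⊆ Om s' M := Finset.filter_subset _ _
  rw [← Finset.sum_sdiff hEs]
  have t1 : ∑ m ∈ Om s' M \ E, ((cf (Icc 1 M) (fun x => Q (Fin.cons x m))).card : ℝ) ≤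
      (M : ℝ) ^ s' * (2 * δ * M) := by
    calc ∑ m ∈ Om s' M \ E, ((cf (Icc 1 M) (fun x => Q (Fin.cons x m))).card : ℝ)
        ≤ ∑ _m ∈ Om s' M \ E, (2 * δ * M) := Finset.sum_le_sum fun m hm => by
          rw [Finset.mem_sdiff] at hm
          exact hN m hm.1 hm.2
      _ = ((Om s' M \ E).card : ℝ) * (2 * δ * M) := by rw [Finset.sum_const, nsmul_eq_mul]
      _ ≤ ((Om s' M).card : ℝ) * (2 * δ * M) := by
          refine mul_le_mul_of_nonneg_right ?_ (by positivity)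
          exact_mod_cast card_le_card Finset.sdiff_subset
      _ = (M : ℝ) ^ s' * (2 * δ * M) := by rw [card_Om]; push_cast; rfl
  have t2 : ∑ m ∈ E, ((cf (Icc 1 M) (fun x => Q (Fin.cons x m))).card : ℝ) ≤
      δ * (M : ℝ) ^ s' * M := by
    calc ∑ m ∈ E, ((cf (Icc 1 M) (fun x => Q (Fin.cons x m))).card : ℝ)
        ≤ ∑ _m ∈ E, (M : ℝ) := Finset.sum_le_sum fun m _ => hNt m
      _ = (E.card : ℝ) * M := by rw [Finset.sum_const, nsmul_eq_mul]
      _ ≤ _ := mul_le_mul_of_nonneg_right hEc hM0.le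
  have t3 : (M : ℝ) ^ s' * (2 * δ * M) + δ * (M : ℝ) ^ s' * M = 3 / 4 * (ε * (M : ℝ) ^ (s' + 1)) := by
    rw [hδ, pow_succ]
    ring
  have t4 : 0 ≤ ε * (M : ℝ) ^ (s' + 1) := by positivity
  linarith

end Pool.Agent.Helper43.Gr.PkR8c
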